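import Mathlib
import Pool.Agent.W232.FC.Fin2

/-!
`S`-solutions of `a x^p + b y^q = c z^r` with one small base, or one large exponent.

For every finite set `S` of primes and every `ε > 0` there is `δ > 0` such that for all large `X`
the `S`-solutions with terms at most `X` in absolute value and one of `|x|`, `|y|`, `|z|` at most
`X^δ` have at most `X^ε` different triples of terms `(a x^p, b y^q, c z^r)`. A base whose exponent is
at least `1 / δ` is at most `X^δ`, so the theorem covers all triples of exponents `(p, q, r)` but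
finitely many.
-/

namespace Pool.Agent.Results.MP_be1fae_nt.SmallBaseSolutions

/-- solutions of `a x ^ p + b y ^ q = c z ^ r` in nonzero integers with exponents at least `2` and
coefficients composed of primes of `S` (`1/p + 1/q + 1/r < 1` implies that the exponents are at least
`2`; neither this inequality nor a coprimality condition is imposed) -/
def SSolution (S : Finset ℕ) (a b c x y z : ℤ) (p q r : ℕ) : Prop :=
  2 ≤ p ∧ 2 ≤ q ∧ 2 ≤ r ∧ a ≠ 0 ∧ b ≠ 0 ∧ c ≠ 0 ∧ x ≠ 0 ∧ y ≠ 0 ∧ z ≠ 0 ∧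
    (∀ ℓ : ℕ, ℓ.Prime → (ℓ : ℤ) ∣ a * b * c → ℓ ∈ S) ∧ a * x ^ p + b * y ^ q = c * z ^ r

/-- the triples of terms, all at most `X` in absolute value, of the solutions one of whose bases is
at most `Y` in absolute value -/
def Terms (S : Finset ℕ) (X : ℕ) (Y : ℝ) : Set (ℤ × ℤ × ℤ) :=
  {t | ∃ (a b c x y z : ℤ) (p q r : ℕ), SSolution S a b c x y z p q r ∧
    t = (a * x ^ p, b * y ^ q, c * z ^ r) ∧ |t.1| ≤ X ∧ |t.2.1| ≤ X ∧ |t.2.2| ≤ X ∧
    ((|x| : ℝ) ≤ Y ∨ (|y| : ℝ) ≤ Y ∨ (|z| : ℝ) ≤ Y)}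

theorem result (S : Finset ℕ) : ∀ ε : ℝ, 0 < ε → ∃ δ : ℝ, 0 < δ ∧ ∃ X₀ : ℕ, ∀ X : ℕ, X₀ ≤ X →
    (Terms S X ((X : ℝ) ^ δ)).Finite ∧
      ((Terms S X ((X : ℝ) ^ δ)).ncard : ℝ) ≤ (X : ℝ) ^ ε := by
  intro ε hε
  obtain ⟨δ, hδ, X₁, hX₁⟩ := Pool.Agent.W232.FC.sparseC ε hε
  obtain ⟨X₂, hX₂⟩ := Pool.Agent.W232.FC.ev_const
    ((∏ p ∈ S.filter Nat.Prime, p : ℕ) : ℝ) δ hδ
  refine ⟨δ, hδ, X₁ + X₂, fun X hX => ?_⟩
  have h1 := hX₁ X (by omega)
  have h2 := hX₂ X (by omega)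
  have hrad : ∀ a : ℤ, a ≠ 0 → (∀ ℓ : ℕ, ℓ.Prime → (ℓ : ℤ) ∣ a → ℓ ∈ S) →
      (Pool.Agent.W232.FC.rad a.natAbs : ℝ) ≤ (X : ℝ) ^ δ := by
    intro a ha h
    refine le_trans ?_ h2
    have hd : Pool.Agent.W232.FC.rad a.natAbs ∣ ∏ p ∈ S.filter Nat.Prime, p := by
      unfold Pool.Agent.W232.FC.rad
      refine Finset.prod_dvd_prod_of_subset _ _ _ ?_
      intro ℓ hℓ
      rw [Finset.mem_filter]
      exact ⟨h ℓ (Nat.prime_of_mem_primeFactors hℓ)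
        (Int.natCast_dvd.2 (Nat.dvd_of_mem_primeFactors hℓ)), Nat.prime_of_mem_primeFactors hℓ⟩
    have hpos : 0 < ∏ p ∈ S.filter Nat.Prime, p :=
      Finset.prod_pos fun p hp => (Finset.mem_filter.1 hp).2.pos
    exact_mod_cast Nat.le_of_dvd hpos hd
  have habs : ∀ (x : ℤ), (x.natAbs : ℝ) = |(x : ℝ)| := by
    intro x
    rw [Nat.cast_natAbs]; push_cast; rfl
  have hnat : ∀ x : ℤ, |x| ≤ X → x.natAbs ≤ X := by
    intro x hx
    rw [Int.abs_eq_natAbs] at hx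
    exact_mod_cast hx
  have hsub : Terms S X ((X : ℝ) ^ δ) ⊆ Pool.Agent.W232.FC.SolC X ((X : ℝ) ^ δ) := by
    rintro t ⟨a, b, c, x, y, z, p, q, r, ⟨hp, hq, hr, ha, hb, hc, hx, hy, hz, hl, he⟩, ht, t1,
      t2, t3, hor⟩
    refine ⟨?_, hnat _ t1, hnat _ t2, hnat _ t3, a, b, c, x, y, z, p, q, r, ha, hb, hc, hx, hy,
      hz, hp, hq, hr, ht, ?_, ?_, ?_, ?_⟩
    · rw [ht]; exact he
    · exact hrad a ha fun ℓ hℓ h => hl ℓ hℓ ((h.mul_right b).mul_right c)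
    · exact hrad b hb fun ℓ hℓ h => hl ℓ hℓ ((h.mul_left a).mul_right c)
    · exact hrad c hc fun ℓ hℓ h => hl ℓ hℓ (h.mul_left (a * b))
    · rw [habs, habs, habs]; exact hor
  have hfin := Pool.Agent.W232.FC.SolC_finite X ((X : ℝ) ^ δ)
  refine ⟨hfin.subset hsub, le_trans ?_ h1⟩
  exact_mod_cast Set.ncard_le_ncard hsub hfin

end Pool.Agent.Results.MP_be1fae_nt.SmallBaseSolutions
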